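import Mathlib

/-!
If `|w(y)| ≤ X / |y|`, then the norm of `w` in `BMO⁻¹` (defined through the caloric extension) is at
most a constant times `X`.
-/

set_option autoImplicit false

open MeasureTheory Set Metric
open scoped ENNReal

namespace Pool.Agent.N976.BM

abbrev E3 := EuclideanSpace ℝ (Fin 3)

/-- The heat kernel. -/
noncomputable def gk (s : ℝ) (z : E3) : ℝ :=
  (4 * Real.pi * s) ^ (-(3 / 2) : ℝ) * Real.exp (-(‖z‖ ^ 2 / (4 * s)))

/-- The caloric extension. -/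
noncomputable def heat (s : ℝ) (w : E3 → E3) (y : E3) : E3 := ∫ z, gk s z • w (y - z)

theorem gk_nonneg {s : ℝ} (hs : 0 < s) (z : E3) : 0 ≤ gk s z := by
  unfold gk; positivity

theorem gk_cont (s : ℝ) : Continuous (gk s) := by
  unfold gk; fun_prop

theorem mass {s : ℝ} (hs : 0 < s) : ∫⁻ z : E3, ENNReal.ofReal (gk s z) = 1 := by
  have hb : (0:ℝ) < 1 / (4 * s) := by positivity
  have h1 := GaussianFourier.integral_rexp_neg_mul_sq_norm (V := E3) hb
  have hp : (0:ℝ) < 4 * Real.pi * s := by positivity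
  have h2 : (∫ v : E3, Real.exp (-(1 / (4 * s)) * ‖v‖ ^ 2)) = (4 * Real.pi * s) ^ (3 / 2 : ℝ) := by
    rw [h1]
    congr 1
    · field_simp
    · simp
  have hi : Integrable (fun v : E3 => Real.exp (-(1 / (4 * s)) * ‖v‖ ^ 2)) := by
    by_contra hn
    rw [integral_undef hn] at h2
    have : (0:ℝ) < (4 * Real.pi * s) ^ (3 / 2 : ℝ) := Real.rpow_pos_of_pos hp _
    linarith
  have e : gk s = fun z => (4 * Real.pi * s) ^ (-(3 / 2) : ℝ) *
      Real.exp (-(1 / (4 * s)) * ‖z‖ ^ 2) := by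
    ext z
    unfold gk
    congr 2
    ring
  rw [← ofReal_integral_eq_lintegral_ofReal]
  · rw [e, integral_const_mul, h2, ← Real.rpow_add hp]
    norm_num
  · rw [e]
    exact hi.const_mul _
  · filter_upwards with z using gk_nonneg hs z

/-- The volume of the unit ball. -/
noncomputable def vb : ℝ := (volume : Measure E3).real (ball 0 1)

theorem vb_nonneg : 0 ≤ vb := measureReal_nonneg

theorem ball0 {ρ : ℝ} (hρ : 0 < ρ) :
    ∫⁻ y in ball (0 : E3) ρ, ENNReal.ofReal ((‖y‖ ^ 2)⁻¹) = ENNReal.ofReal (3 * vb * ρ) := by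
  have hd : Module.finrank ℝ E3 = 3 := by simp
  have h1 : IntegrableOn (fun x : E3 => (‖x‖ ^ 2)⁻¹) (ball (0 : E3) ρ) volume := by
    refine (integrableOn_fun_norm_addHaar (volume : Measure E3)
      (f := fun r : ℝ => (r ^ 2)⁻¹) (r := ρ)).2 ?_
    have : IntegrableOn (fun _ : ℝ => (1:ℝ)) (Ioo 0 ρ) volume := by
      rw [integrableOn_const_iff]
      right
      simp
    refine this.congr_fun ?_ measurableSet_Ioo
    intro y hy
    have hy0 : y ≠ 0 := ne_of_gt hy.1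
    simp only [hd, smul_eq_mul]
    norm_num
    field_simp
  have h2 : ∫ x in ball (0 : E3) ρ, (‖x‖ ^ 2)⁻¹ = 3 * vb * ρ := by
    have e1 : ∫ x in ball (0 : E3) ρ, (‖x‖ ^ 2)⁻¹ =
        ∫ x : E3, (Iio ρ).indicator (fun r : ℝ => (r ^ 2)⁻¹) ‖x‖ := by
      rw [← integral_indicator measurableSet_ball]
      refine integral_congr_ae (Filter.Eventually.of_forall fun x => ?_)
      simp only [indicator, mem_ball, dist_zero_right, mem_Iio]
    rw [e1, integral_fun_norm_addHaar (volume : Measure E3)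
      ((Iio ρ).indicator (fun r : ℝ => (r ^ 2)⁻¹)), hd]
    have e2 : ∫ y in Ioi (0:ℝ), y ^ (3 - 1) • (Iio ρ).indicator (fun r : ℝ => (r ^ 2)⁻¹) y = ρ := by
      have e3 : ∫ y in Ioi (0:ℝ), y ^ (3 - 1) • (Iio ρ).indicator (fun r : ℝ => (r ^ 2)⁻¹) y =
          ∫ y in Ioi (0:ℝ), (Iio ρ).indicator (fun _ : ℝ => (1:ℝ)) y := by
        refine setIntegral_congr_fun measurableSet_Ioi fun y hy => ?_
        have hy0 : y ≠ 0 := ne_of_gt hy
        by_cases h : y < ρ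
        · simp only [indicator, mem_Iio, h, if_true, smul_eq_mul]
          norm_num
          field_simp
        · simp [indicator, h]
      rw [e3, setIntegral_indicator measurableSet_Iio]
      rw [show Ioi (0:ℝ) ∩ Iio ρ = Ioo 0 ρ from Ioi_inter_Iio]
      simp [hρ.le]
    rw [e2]
    simp only [smul_eq_mul, nsmul_eq_mul, vb]
    push_cast
    ring
  rw [← ofReal_integral_eq_lintegral_ofReal h1 (Filter.Eventually.of_forall fun x => by positivity),
    h2]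

theorem ballx {ρ : ℝ} (hρ : 0 < ρ) (x : E3) :
    ∫⁻ y in ball x ρ, ENNReal.ofReal ((‖y‖ ^ 2)⁻¹) ≤ ENNReal.ofReal (4 * vb * ρ) := by
  have hsub : ball x ρ ⊆ ball (0 : E3) ρ ∪ (ball x ρ ∩ {y | ρ ≤ ‖y‖}) := by
    intro y hy
    by_cases h : ‖y‖ < ρ
    · left; simpa using h
    · right; exact ⟨hy, not_lt.1 h⟩
  have hm : MeasurableSet (ball x ρ ∩ {y : E3 | ρ ≤ ‖y‖}) :=
    measurableSet_ball.inter (measurableSet_le measurable_const measurable_norm)
  have h2 : ∫⁻ y in ball x ρ ∩ {y | ρ ≤ ‖y‖}, ENNReal.ofReal ((‖y‖ ^ 2)⁻¹) ≤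
      ENNReal.ofReal (vb * ρ) := by
    calc ∫⁻ y in ball x ρ ∩ {y | ρ ≤ ‖y‖}, ENNReal.ofReal ((‖y‖ ^ 2)⁻¹)
        ≤ ∫⁻ _ in ball x ρ ∩ {y | ρ ≤ ‖y‖}, ENNReal.ofReal ((ρ ^ 2)⁻¹) := by
          refine setLIntegral_mono' hm fun y hy => ENNReal.ofReal_le_ofReal ?_
          have : ρ ≤ ‖y‖ := hy.2
          gcongr
      _ = ENNReal.ofReal ((ρ ^ 2)⁻¹) * volume (ball x ρ ∩ {y | ρ ≤ ‖y‖}) := setLIntegral_const _ _
      _ ≤ ENNReal.ofReal ((ρ ^ 2)⁻¹) * volume (ball x ρ) := by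
          exact mul_le_mul_right (measure_mono inter_subset_left) _
      _ = ENNReal.ofReal (vb * ρ) := by
          rw [Measure.addHaar_ball _ _ hρ.le]
          have hv : volume (ball (0 : E3) 1) = ENNReal.ofReal vb := by
            unfold vb
            rw [ofReal_measureReal]
          rw [hv, ← ENNReal.ofReal_mul (by positivity), ← ENNReal.ofReal_mul (by positivity)]
          congr 1
          have hd : Module.finrank ℝ E3 = 3 := by simp
          rw [hd]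
          field_simp
  calc ∫⁻ y in ball x ρ, ENNReal.ofReal ((‖y‖ ^ 2)⁻¹)
      ≤ ∫⁻ y in ball (0 : E3) ρ ∪ (ball x ρ ∩ {y | ρ ≤ ‖y‖}), ENNReal.ofReal ((‖y‖ ^ 2)⁻¹) :=
        lintegral_mono_set hsub
    _ ≤ (∫⁻ y in ball (0 : E3) ρ, ENNReal.ofReal ((‖y‖ ^ 2)⁻¹)) +
        ∫⁻ y in ball x ρ ∩ {y | ρ ≤ ‖y‖}, ENNReal.ofReal ((‖y‖ ^ 2)⁻¹) := lintegral_union_le _ _ _
    _ ≤ ENNReal.ofReal (3 * vb * ρ) + ENNReal.ofReal (vb * ρ) := by
        rw [ball0 hρ]
        gcongr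
    _ = ENNReal.ofReal (4 * vb * ρ) := by
        have := vb_nonneg
        rw [← ENNReal.ofReal_add (by positivity) (by positivity)]
        congr 1
        ring

theorem sq_le {f : E3 → ℝ≥0∞} {g : E3 → ℝ≥0∞} (hf : Measurable f) (hg : Measurable g)
    (h1 : ∫⁻ z, f z = 1) : (∫⁻ z, f z * g z) ^ 2 ≤ ∫⁻ z, f z * g z ^ 2 := by
  have h := ENNReal.lintegral_mul_le_Lp_mul_Lq (volume : Measure E3)
    (p := 2) (q := 2) Real.HolderConjugate.two_two
    (f := fun z => f z ^ (1 / 2 : ℝ)) (g := fun z => f z ^ (1 / 2 : ℝ) * g z)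
    (hf.pow_const _).aemeasurable ((hf.pow_const _).mul hg).aemeasurable
  have e0 : ∀ z, f z ^ (1 / 2 : ℝ) * f z ^ (1 / 2 : ℝ) = f z := by
    intro z
    rw [← ENNReal.rpow_add_of_nonneg _ _ (by norm_num) (by norm_num)]
    norm_num
  have e1 : ∀ z, (f z ^ (1 / 2 : ℝ)) ^ (2 : ℝ) = f z := by
    intro z
    rw [← ENNReal.rpow_mul]
    norm_num
  have e2 : ∀ z, (f z ^ (1 / 2 : ℝ) * g z) ^ (2 : ℝ) = f z * g z ^ 2 := by
    intro z
    rw [ENNReal.mul_rpow_of_nonneg _ _ (by norm_num), e1]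
    norm_cast
  simp only [Pi.mul_apply, e1, e2, h1, ENNReal.one_rpow, one_mul] at h
  have e3 : ∀ z, f z ^ (1 / 2 : ℝ) * (f z ^ (1 / 2 : ℝ) * g z) = f z * g z := by
    intro z
    rw [← mul_assoc, e0]
  simp only [e3] at h
  calc (∫⁻ z, f z * g z) ^ 2 ≤ ((∫⁻ z, f z * g z ^ 2) ^ (1 / 2 : ℝ)) ^ 2 := by gcongr
    _ = ∫⁻ z, f z * g z ^ 2 := by
        rw [← ENNReal.rpow_natCast, ← ENNReal.rpow_mul]
        norm_num

theorem slice {w : E3 → E3} (hw : Continuous w) {X : ℝ} (hX : ∀ y, ‖y‖ * ‖w y‖ ≤ X) {s : ℝ}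
    (hs : 0 < s) (x : E3) {ρ : ℝ} (hρ : 0 < ρ) :
    ∫⁻ y in ball x ρ, ‖heat s w y‖ₑ ^ 2 ≤ ENNReal.ofReal (4 * vb * X ^ 2 * ρ) := by
  have hX0 : 0 ≤ X := le_trans (by positivity) (hX 0)
  have hG : Measurable fun z : E3 => ENNReal.ofReal (gk s z) := (gk_cont s).measurable.ennreal_ofReal
  have hW : Measurable fun z : E3 => ‖w z‖ₑ := hw.measurable.enorm
  have hpt : ∀ y, ‖heat s w y‖ₑ ^ 2 ≤ ∫⁻ z, ENNReal.ofReal (gk s z) * ‖w (y - z)‖ₑ ^ 2 := by
    intro y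
    have h1 : ‖heat s w y‖ₑ ≤ ∫⁻ z, ENNReal.ofReal (gk s z) * ‖w (y - z)‖ₑ := by
      refine le_trans (enorm_integral_le_lintegral_enorm _) (le_of_eq ?_)
      refine lintegral_congr fun z => ?_
      rw [enorm_smul, Real.enorm_of_nonneg (gk_nonneg hs z)]
    refine le_trans (pow_le_pow_left' h1 2) ?_
    exact sq_le hG (hW.comp (measurable_const.sub measurable_id)) (mass hs)
  have hball : ∀ z : E3, ∫⁻ y in ball x ρ, ‖w (y - z)‖ₑ ^ 2 ≤ ENNReal.ofReal (4 * vb * X ^ 2 * ρ) := by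
    intro z
    have e1 : ∫⁻ y in ball x ρ, ‖w (y - z)‖ₑ ^ 2 = ∫⁻ y in ball (x - z) ρ, ‖w y‖ₑ ^ 2 := by
      rw [← lintegral_indicator measurableSet_ball, ← lintegral_indicator measurableSet_ball,
        ← lintegral_sub_right_eq_self
          (fun y => indicator (ball (x - z) ρ) (fun y => ‖w y‖ₑ ^ 2) y) z]
      refine lintegral_congr fun y => ?_
      simp only [indicator, mem_ball, dist_eq_norm]
      rw [show y - z - (x - z) = y - x by abel]
    rw [e1]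
    calc ∫⁻ y in ball (x - z) ρ, ‖w y‖ₑ ^ 2
        ≤ ∫⁻ y in ball (x - z) ρ, ENNReal.ofReal (X ^ 2) * ENNReal.ofReal ((‖y‖ ^ 2)⁻¹) := by
          refine lintegral_mono_ae ?_
          have h0 : ∀ᵐ y : E3 ∂(volume.restrict (ball (x - z) ρ)), y ≠ 0 := by
            refine ae_restrict_of_ae ?_
            exact compl_mem_ae_iff.2 (measure_singleton (0 : E3))
          filter_upwards [h0] with y hy
          have hy' : 0 < ‖y‖ := norm_pos_iff.2 hy
          rw [← ENNReal.ofReal_mul (by positivity), ← ofReal_norm,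
            ← ENNReal.ofReal_pow (norm_nonneg _)]
          refine ENNReal.ofReal_le_ofReal ?_
          have h3 : ‖w y‖ ≤ X * ‖y‖⁻¹ := by
            rw [← div_eq_mul_inv, le_div_iff₀ hy', mul_comm]
            exact hX y
          calc ‖w y‖ ^ 2 ≤ (X * ‖y‖⁻¹) ^ 2 := by gcongr
            _ = X ^ 2 * (‖y‖ ^ 2)⁻¹ := by rw [mul_pow, inv_pow]
      _ = ENNReal.ofReal (X ^ 2) * ∫⁻ y in ball (x - z) ρ, ENNReal.ofReal ((‖y‖ ^ 2)⁻¹) := by
          rw [lintegral_const_mul]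
          fun_prop
      _ ≤ ENNReal.ofReal (X ^ 2) * ENNReal.ofReal (4 * vb * ρ) := by
          gcongr
          exact ballx hρ _
      _ = ENNReal.ofReal (4 * vb * X ^ 2 * ρ) := by
          rw [← ENNReal.ofReal_mul (by positivity)]
          congr 1
          ring
  calc ∫⁻ y in ball x ρ, ‖heat s w y‖ₑ ^ 2
      ≤ ∫⁻ y in ball x ρ, ∫⁻ z, ENNReal.ofReal (gk s z) * ‖w (y - z)‖ₑ ^ 2 :=
        lintegral_mono fun y => hpt y
    _ = ∫⁻ z, ∫⁻ y in ball x ρ, ENNReal.ofReal (gk s z) * ‖w (y - z)‖ₑ ^ 2 := by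
        refine lintegral_lintegral_swap ?_
        refine Measurable.aemeasurable ?_
        have : Measurable fun q : E3 × E3 => ENNReal.ofReal (gk s q.2) * ‖w (q.1 - q.2)‖ₑ ^ 2 :=
          (hG.comp measurable_snd).mul
            ((hW.comp (measurable_fst.sub measurable_snd)).pow_const 2)
        exact this
    _ = ∫⁻ z, ENNReal.ofReal (gk s z) * ∫⁻ y in ball x ρ, ‖w (y - z)‖ₑ ^ 2 := by
        refine lintegral_congr fun z => ?_
        rw [lintegral_const_mul]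
        exact (hW.comp (measurable_id.sub measurable_const)).pow_const 2
    _ ≤ ∫⁻ z, ENNReal.ofReal (gk s z) * ENNReal.ofReal (4 * vb * X ^ 2 * ρ) := by
        refine lintegral_mono fun z => ?_
        gcongr
        exact hball z
    _ = ENNReal.ofReal (4 * vb * X ^ 2 * ρ) := by
        rw [lintegral_mul_const _ hG, mass hs, one_mul]

theorem bmo {w : E3 → E3} (hw : Continuous w) {X : ℝ} (hX : ∀ y, ‖y‖ * ‖w y‖ ≤ X) (x : E3)
    {ρ : ℝ} (hρ : 0 < ρ) :
    ∫⁻ s in Ioo 0 (ρ ^ 2), ∫⁻ y in ball x ρ, ‖heat s w y‖ₑ ^ 2 ≤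
      ENNReal.ofReal (4 * vb * X ^ 2 * ρ ^ 3) := by
  have := vb_nonneg
  calc ∫⁻ s in Ioo 0 (ρ ^ 2), ∫⁻ y in ball x ρ, ‖heat s w y‖ₑ ^ 2
      ≤ ∫⁻ _ in Ioo 0 (ρ ^ 2), ENNReal.ofReal (4 * vb * X ^ 2 * ρ) :=
        setLIntegral_mono' measurableSet_Ioo fun s hs => slice hw hX hs.1 x hρ
    _ = ENNReal.ofReal (4 * vb * X ^ 2 * ρ ^ 3) := by
        rw [setLIntegral_const, Real.volume_Ioo, ← ENNReal.ofReal_mul (by positivity)]
        congr 1
        ring

end Pool.Agent.N976.BM
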